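import Mathlib

set_option autoImplicit false
set_option linter.style.haveILetI false

namespace Pool.Agent.H.MP_9e467c_al

open Equiv Subgroup
open scoped commutatorElement

abbrev X := Fin 5
abbrev P := Perm (List X)
abbrev A := alternatingGroup X

def rtF (α : Perm X) : List X → List X
  | [] => []
  | x :: w => α x :: w

def rt : Perm X →* P := MonoidHom.toHomPerm
  { toFun := rtF
    map_one' := funext fun w => by cases w <;> rfl
    map_mul' := fun _ _ => funext fun w => by cases w <;> rfl }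

def drF (i : X) (α : Perm X) : List X → List X
  | [] => []
  | x :: w => x :: (if x = i then drF i α w else if x = 2 then rt α w else w)

def dr (i : X) : Perm X →* P := MonoidHom.toHomPerm
  { toFun := drF i
    map_one' := funext fun w => by
      change _ = w
      induction w with
      | nil => rfl
      | cons x w ih => simp [drF, ih]
    map_mul' := fun α β => funext fun w => by
      change _ = drF i α (drF i β w)
      induction w with
      | nil => rfl
      | cons x w ih => simp only [drF, ih]; split_ifs <;> simp }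

def locF (x : X) (g : P) : List X → List X
  | [] => []
  | y :: w => y :: (if y = x then g w else w)

def loc (x : X) : P →* P := MonoidHom.toHomPerm
  { toFun := locF x
    map_one' := funext fun w => by
      change _ = w
      cases w <;> simp [locF]
    map_mul' := fun g h => funext fun w => by
      change _ = locF x g (locF x h w)
      cases w with
      | nil => rfl
      | cons y w => simp only [locF]; split_ifs <;> rfl }

def s : Perm X := swap 0 1

def sg : P := Function.Involutive.toPerm (List.map s) fun w => by simp [s, Function.comp_def]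

@[simp] lemma rt_nil (α : Perm X) : rt α [] = [] := rfl
@[simp] lemma rt_cons (α : Perm X) (x : X) (w : List X) : rt α (x :: w) = α x :: w := rfl
@[simp] lemma dr_nil (i : X) (α : Perm X) : dr i α [] = [] := rfl
lemma dr_cons (i : X) (α : Perm X) (x : X) (w : List X) :
    dr i α (x :: w) = x :: (if x = i then dr i α else if x = 2 then rt α else 1) w := by
  change x :: (if x = i then drF i α w else if x = 2 then rt α w else w) = _
  split_ifs <;> rfl
@[simp] lemma loc_nil (x : X) (g : P) : loc x g [] = [] := rfl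
lemma loc_cons (x : X) (g : P) (y : X) (w : List X) :
    loc x g (y :: w) = y :: (if y = x then g w else w) := rfl
@[simp] lemma sg_nil : sg [] = [] := rfl
@[simp] lemma sg_cons (x : X) (w : List X) : sg (x :: w) = s x :: sg w := rfl
lemma sg_sq : sg * sg = 1 := Equiv.ext fun w => by
  change List.map s (List.map s w) = w
  simp [s, Function.comp_def]
lemma sg_inv : sg⁻¹ = sg := rfl

/-- wreath decomposition -/
def Dec (g : P) (a : Perm X) (f : X → P) : Prop := g [] = [] ∧ ∀ y w, g (y :: w) = a y :: f y w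

lemma Dec.mul {g h : P} {a b : Perm X} {f f' : X → P} (h1 : Dec g a f) (h2 : Dec h b f') :
    Dec (g * h) (a * b) fun y => f (b y) * f' y :=
  ⟨by rw [Perm.mul_apply, h2.1, h1.1], fun y w => by rw [Perm.mul_apply, h2.2, h1.2]; rfl⟩

lemma Dec.conj {g : P} {a : Perm X} {f : X → P} (h1 : Dec g a f) (x : X) (h : P) :
    g * loc x h * g⁻¹ = loc (a x) (f x * h * (f x)⁻¹) := by
  rw [mul_inv_eq_iff_eq_mul]
  ext1 w
  rcases w with _ | ⟨y, w⟩
  · simp only [Perm.mul_apply, loc_nil, h1.1]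
  · simp only [Perm.mul_apply, loc_cons, h1.2, EmbeddingLike.apply_eq_iff_eq]
    split_ifs with e
    · simp [e]
    · rfl

lemma dec_rt (α : Perm X) : Dec (rt α) α fun _ => 1 := ⟨rfl, fun _ _ => rfl⟩
lemma dec_sg : Dec sg s fun _ => sg := ⟨rfl, fun _ _ => rfl⟩

lemma rt_loc (α : Perm X) (x : X) (h : P) : rt α * loc x h * (rt α)⁻¹ = loc (α x) h := by
  simpa using (dec_rt α).conj x h

lemma loc_comm {x y : X} (hxy : x ≠ y) (g h : P) : Commute (loc x g) (loc y h) := by
  ext1 w
  rcases w with _ | ⟨z, w⟩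
  · rfl
  · simp only [Perm.mul_apply, loc_cons]
    split_ifs with h1 h2
    · exact absurd (h1.symm.trans h2) hxy
    all_goals rfl

lemma dr_eq {i : X} (hi : i ≠ 2) (α : Perm X) : dr i α = loc i (dr i α) * loc 2 (rt α) := by
  ext1 w
  rcases w with _ | ⟨z, w⟩
  · rfl
  · simp only [Perm.mul_apply, loc_cons, dr_cons]
    split_ifs with h1 h2
    · exact absurd (h1.symm.trans h2) hi
    all_goals rfl


lemma ss (x : X) : s (s x) = x := swap_apply_self _ _ _

lemma sg_rt (α : Perm X) : sg * rt α * sg = rt (s * α * s) := by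
  ext1 w
  rcases w with _ | ⟨z, w⟩
  · rfl
  · exact congrArg (List.cons _) (Equiv.congr_fun sg_sq w)

lemma sg_dr (i : X) (α : Perm X) : sg * dr i α * sg = dr (s i) (s * α * s) := by
  have h1 : ∀ z : X, s z = i ↔ z = s i := by clear α; revert i; decide
  have h2 : ∀ z : X, s z = 2 ↔ z = 2 := by decide
  ext1 w
  induction w with
  | nil => rfl
  | cons z w ih =>
    simp only [Perm.mul_apply, sg_cons, dr_cons, ss, h1, h2]
    split_ifs
    · exact congrArg _ ih
    · exact congrArg _ (Equiv.congr_fun (sg_rt α) w)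
    · exact congrArg _ (Equiv.congr_fun sg_sq w)

lemma sA {α : Perm X} (h : α ∈ A) : s * α * s ∈ A :=
  (inferInstance : A.Normal).conj_mem α h s

def Gen (I : Set X) : Set P := {t | ∃ α ∈ A, t = rt α ∨ ∃ i ∈ I, t = dr i α}

def K (I : Set X) : Subgroup P := closure (Gen I)

variable {I : Set X}

lemma rt_mem {α : Perm X} (h : α ∈ A) : rt α ∈ K I := subset_closure ⟨α, h, .inl rfl⟩
lemma dr_mem {α : Perm X} (h : α ∈ A) {i : X} (hi : i ∈ I) : dr i α ∈ K I :=
  subset_closure ⟨α, h, .inr ⟨i, hi, rfl⟩⟩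

lemma K_list {g : P} (hg : g ∈ K I) : ∃ l : List P, (∀ t ∈ l, t ∈ Gen I) ∧ l.prod = g := by
  induction hg using closure_induction'' with
  | one => exact ⟨[], by simp, rfl⟩
  | mem g hg => exact ⟨[g], by simpa using hg, by simp⟩
  | inv_mem g hg =>
    refine ⟨[g⁻¹], ?_, by simp⟩
    obtain ⟨α, h, rfl | ⟨i, hi, rfl⟩⟩ := hg <;> simp only [List.mem_singleton, forall_eq, ← map_inv]
    · exact ⟨_, inv_mem h, .inl rfl⟩
    · exact ⟨_, inv_mem h, .inr ⟨i, hi, rfl⟩⟩
  | mul g h _ _ hg hh =>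
    obtain ⟨l, h1, rfl⟩ := hg
    obtain ⟨l', h2, rfl⟩ := hh
    exact ⟨l ++ l', by simpa [or_imp, forall_and] using ⟨h1, h2⟩, by simp⟩

lemma gen_dec {t : P} (ht : t ∈ Gen I) : ∃ a ∈ A, ∃ f, Dec t a f ∧ (∀ y, f y ∈ Gen I) ∧
    ∀ y, y ∉ I → y ≠ 2 → f y = 1 := by
  have h1 : (1 : P) ∈ Gen I := ⟨1, one_mem _, .inl (map_one _).symm⟩
  obtain ⟨α, h, rfl | ⟨i, hi, rfl⟩⟩ := ht
  · exact ⟨α, h, _, dec_rt α, fun _ => h1, fun _ _ _ => rfl⟩
  · refine ⟨1, one_mem _, _, ⟨rfl, dr_cons i α⟩, fun y => ?_, fun y h1 h2 => ?_⟩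
    · split_ifs
      exacts [⟨α, h, .inr ⟨i, hi, rfl⟩⟩, ⟨α, h, .inl rfl⟩, h1]
    · rw [if_neg (fun e : y = i => h1 (e ▸ hi)), if_neg h2]

lemma list_dec (l : List P) (hl : ∀ t ∈ l, t ∈ Gen I) : ∃ a ∈ A, ∃ f : X → List P,
    Dec l.prod a (fun y => (f y).prod) ∧ (∀ y, ∀ t ∈ f y, t ∈ Gen I) ∧
    (∀ y, (f y).length ≤ l.length) ∧ ∀ y, y ∉ I → y ≠ 2 → (f y).length ≤ l.length - 1 := by
  induction l with
  | nil => exact ⟨1, one_mem _, fun _ => [], ⟨rfl, fun _ _ => rfl⟩, by simp, by simp, by simp⟩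
  | cons t l ih =>
    obtain ⟨b, hb, f', k1, k2, k3, k4⟩ := ih fun t ht => hl t (by simp [ht])
    obtain ⟨a, ha, f, h1, h2, h3⟩ := gen_dec (hl t (by simp))
    classical
    refine ⟨a * b, mul_mem ha hb, fun y => if f (b y) = 1 then f' y else f (b y) :: f' y, ?_,
      fun y => ?_, fun y => ?_, fun y y1 y2 => ?_⟩
    · rw [List.prod_cons]
      have := h1.mul k1
      refine ⟨this.1, fun y w => (this.2 y w).trans ?_⟩
      beta_reduce
      split_ifs with e <;> simp [*]
    · beta_reduce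
      split_ifs
      · exact k2 y
      · simpa using ⟨h2 _, k2 y⟩
    · have := k3 y
      beta_reduce
      split_ifs <;> simp <;> omega
    · rcases l with _ | ⟨t', l⟩
      · have e : b y = y := (List.cons.inj (k1.2 y [])).1.symm
        beta_reduce
        rw [e, if_pos (h3 y y1 y2)]
        simpa using k3 y
      · have := k4 y y1 y2
        beta_reduce
        split_ifs <;> simp at this ⊢ <;> omega

lemma K_dec {g : P} (hg : g ∈ K I) : ∃ a ∈ A, ∃ f, Dec g a f ∧ ∀ y, f y ∈ K I := by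
  obtain ⟨l, hl, rfl⟩ := K_list hg
  obtain ⟨a, ha, f, h1, h2, -⟩ := list_dec l hl
  exact ⟨a, ha, _, h1, fun y => list_prod_mem fun t ht => subset_closure (h2 y t ht)⟩

lemma trans (x y : X) : ∃ a ∈ A, a x = y := by
  have : ∀ x y : X, ∃ z w : X, (swap x z * swap x w) x = y ∧ x ≠ z ∧ x ≠ w := by decide
  obtain ⟨z, w, h1, h2, h3⟩ := this x y
  exact ⟨_, by simp [Perm.mem_alternatingGroup, h2, h3], h1⟩

lemma loc_move {N : Subgroup P} (hN : ∀ α ∈ A, rt α ∈ N) {x : X} {g : P} (h : loc x g ∈ N)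
    (y : X) : loc y g ∈ N := by
  obtain ⟨a, ha, rfl⟩ := trans x y
  rw [← rt_loc]
  exact mul_mem (mul_mem (hN a ha) h) (inv_mem (hN a ha))

lemma loc_mem (h0 : 0 ∈ I) (h2 : 2 ∉ I) (x : X) {g : P} (hg : g ∈ K I) : loc x g ∈ K I := by
  have k1 : A ≤ (K I).comap ((loc 2).comp rt) := by
    refine (commutator_alternatingGroup_eq_self (α := X) (by simp)).ge.trans (commutator_le.2 ?_)
    intro α hα β hβ
    let a : Perm X := swap 0 4 * swap 0 3
    have ha : a ∈ A := by simp [a, Perm.mem_alternatingGroup]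
    have e1 : rt a * dr 0 β * (rt a)⁻¹ = loc 3 (dr 0 β) * loc 2 (rt β) := by
      conv_lhs => rw [dr_eq (by decide), ← conj_mul, rt_loc, rt_loc]
      rfl
    have e2 : ⁅dr 0 α, rt a * dr 0 β * (rt a)⁻¹⁆ = loc 2 (rt ⁅α, β⁆) := by
      rw [e1, dr_eq (i := 0) (by decide) α, map_commutatorElement, map_commutatorElement]
      have c1 := loc_comm (x := 0) (y := 3) (by decide) (dr 0 α) (dr 0 β)
      have c2 := loc_comm (x := 0) (y := 2) (by decide) (dr 0 α) (rt β)
      have c3 := loc_comm (x := 0) (y := 2) (by decide) (dr 0 α) (rt α)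
      have c4 := loc_comm (x := 3) (y := 2) (by decide) (dr 0 β) (rt α)
      have c5 := loc_comm (x := 3) (y := 2) (by decide) (dr 0 β) (rt β)
      generalize loc 0 (dr 0 α) = u at *
      generalize loc 3 (dr 0 β) = v at *
      generalize loc 2 (rt α) = p at *
      generalize loc 2 (rt β) = q at *
      have d1 : Commute u (p * (v * q) * p⁻¹) :=
        (c3.mul_right (c1.mul_right c2)).mul_right c3.inv_right
      have d2 : Commute v (p * q * p⁻¹ * q⁻¹) :=
        ((c4.mul_right c5).mul_right c4.inv_right).mul_right c5.inv_right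
      calc ⁅u * p, v * q⁆ = u * (p * (v * q) * p⁻¹) * u⁻¹ * (v * q)⁻¹ := by
            rw [commutatorElement_def]; group
        _ = (p * v) * q * p⁻¹ * q⁻¹ * v⁻¹ := by rw [d1.eq]; group
        _ = v * (p * q * p⁻¹ * q⁻¹) * v⁻¹ := by rw [← c4.eq]; group
        _ = ⁅p, q⁆ := by rw [d2.eq, commutatorElement_def]; group
    change loc 2 (rt ⁅α, β⁆) ∈ K I
    rw [← e2, commutatorElement_def]
    have m1 := dr_mem hα h0
    have m2 := mul_mem (mul_mem (rt_mem (I := I) ha) (dr_mem hβ h0)) (inv_mem (rt_mem ha))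
    exact mul_mem (mul_mem (mul_mem m1 m2) (inv_mem m1)) (inv_mem m2)
  refine (closure_le ((K I).comap (loc x))).2 ?_ hg
  rintro _ ⟨α, h, rfl | ⟨i, hi, rfl⟩⟩
  · exact loc_move (fun _ => rt_mem) (k1 h) x
  · refine loc_move (fun _ => rt_mem) (x := i) ?_ x
    rw [eq_mul_inv_of_mul_eq (dr_eq (fun e => h2 (e ▸ hi)) α).symm]
    exact mul_mem (dr_mem h hi) (inv_mem (k1 h))

def locs : List X → P →* P
  | [] => MonoidHom.id P
  | x :: v => (loc x).comp (locs v)

lemma locs_mem (h0 : 0 ∈ I) (h2 : 2 ∉ I) (v : List X) {g : P} (hg : g ∈ K I) :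
    locs v g ∈ K I := by
  induction v with
  | nil => exact hg
  | cons x v ih => exact loc_mem h0 h2 x ih

lemma locs_self (v : List X) (g : P) (w : List X) : locs v g (v ++ w) = v ++ g w := by
  induction v with
  | nil => rfl
  | cons x v ih => exact (loc_cons ..).trans (by rw [if_pos rfl]; exact congrArg _ ih)

lemma locs_ne (v : List X) (g : P) : ∀ u : List X, ¬ v <+: u → locs v g u = u := by
  induction v with
  | nil => simp
  | cons x v ih =>
    rintro (_ | ⟨y, u⟩) h
    · rfl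
    · refine (loc_cons ..).trans ?_
      split_ifs with e
      · rw [ih u fun ⟨t, ht⟩ => h ⟨t, by rw [e, ← ht]; rfl⟩]
      · rfl

lemma K_trans (h0 : 0 ∈ I) (h2 : 2 ∉ I) (u : List X) : ∀ v : List X, u.length = v.length →
    ∃ g ∈ K I, g u = v := by
  induction u with
  | nil => exact fun v h => ⟨1, one_mem _, (List.length_eq_zero_iff.1 h.symm).symm⟩
  | cons x u ih =>
    rintro (_ | ⟨y, v⟩) h
    · simp at h
    · obtain ⟨g, hg, rfl⟩ := ih v (by simpa using h)
      obtain ⟨a, ha, rfl⟩ := trans x y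
      exact ⟨rt a * loc x g, mul_mem (rt_mem ha) (loc_mem h0 h2 x hg), by simp [loc_cons]⟩

lemma K_st (n : ℕ) : ∀ g ∈ K I, (∀ u : List X, u.length = n → g u = u) →
    g ∈ closure {t | ∃ v : List X, v.length = n ∧ ∃ k ∈ K I, t = locs v k} := by
  induction n with
  | zero => exact fun g hg _ => subset_closure ⟨[], rfl, g, hg, rfl⟩
  | succ n ih =>
    intro g hg h
    obtain ⟨a, -, f, h1, h2⟩ := K_dec hg
    have h3 : ∀ y, a y = y := fun y =>
      (List.cons.inj ((h1.2 y _).symm.trans (h (y :: List.replicate n 0) (by simp)))).1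
    have h4 : ∀ y, loc y (f y) ∈
        closure {t | ∃ v : List X, v.length = n + 1 ∧ ∃ k ∈ K I, t = locs v k} := fun y => by
      rw [← mem_comap]
      refine (closure_le _).2 ?_ (ih _ (h2 y) fun u hu =>
        (List.cons.inj ((h1.2 y _).symm.trans (h (y :: u) (by simp [hu])))).2)
      rintro _ ⟨v, hv, k, hk, rfl⟩
      exact subset_closure ⟨y :: v, by simp [hv], k, hk, rfl⟩
    have : g = loc 0 (f 0) * loc 1 (f 1) * loc 2 (f 2) * loc 3 (f 3) * loc 4 (f 4) := by
      ext1 w
      rcases w with _ | ⟨y, w⟩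
      · exact h1.1
      · rw [h1.2, h3]
        fin_cases y <;> rfl
    rw [this]
    exact mul_mem (mul_mem (mul_mem (mul_mem (h4 _) (h4 _)) (h4 _)) (h4 _)) (h4 _)

lemma K_mono {J : Set X} (h : I ⊆ J) : K I ≤ K J := closure_mono <| by
  rintro _ ⟨α, hα, rfl | ⟨i, hi, rfl⟩⟩
  exacts [⟨α, hα, .inl rfl⟩, ⟨α, hα, .inr ⟨i, h hi, rfl⟩⟩]

lemma twist (n : ℕ) : ∀ l : List P, l.length ≤ n → (∀ t ∈ l, t ∈ Gen {0, 1}) →
    ∀ N : Subgroup P, K {0} ≤ N → (∀ g ∈ N, l.prod * sg * g * (l.prod * sg)⁻¹ ∈ N) →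
      K {0, 1} ≤ N := by
  have fin : ∀ N : Subgroup P, K {0} ≤ N → (∀ α ∈ A, dr 1 α ∈ N) → K {0, 1} ≤ N := fun N h h' =>
    (closure_le _).2 <| by
      rintro _ ⟨α, hα, rfl | ⟨i, rfl | rfl, rfl⟩⟩
      exacts [h (rt_mem hα), h (dr_mem hα rfl), h' α hα]
  induction n with
  | zero =>
    intro l hl _ N h1 h2
    rw [List.length_eq_zero_iff.1 (Nat.le_zero.1 hl), List.prod_nil, one_mul, sg_inv] at h2
    refine fin N h1 fun α hα => ?_
    have := h2 _ (h1 (dr_mem (sA hα) rfl))
    rwa [sg_dr, show s * (s * α * s) * s = α by simp [s, ← mul_assoc, mul_assoc α]] at this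
  | succ n ih =>
    intro l hl hg N h1 h2
    obtain ⟨a, -, f, k1, k2, -, k3⟩ := list_dec l hg
    have hA : ∀ α ∈ A, rt α ∈ N := fun α h => h1 (rt_mem h)
    have k4 := ih (f 3) ((k3 3 (by simp) (by decide)).trans (by omega)) (k2 3) (N.comap (loc 3))
      (fun g hg => h1 (loc_mem (I := {0}) rfl (by simp) 3 hg)) fun g hg => by
        have := h2 _ hg
        rw [(k1.mul dec_sg).conj] at this
        exact loc_move hA this 3
    refine fin N h1 fun α hα => ?_
    rw [dr_eq (by decide)]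
    exact mul_mem (loc_move hA (k4 (dr_mem hα (by simp))) 1) (loc_move hA (k4 (rt_mem hα)) 2)

lemma H_triv (n : ℕ) : ∀ l : List P, l.length ≤ n → (∀ t ∈ l, t ∈ Gen {0}) →
    ∀ v w : List X, ∃ u : List X, l.prod (v ++ (List.replicate n 1 ++ w)) = u ++ w := by
  induction n with
  | zero =>
    intro l hl _ v w
    rw [List.length_eq_zero_iff.1 (Nat.le_zero.1 hl)]
    exact ⟨v, rfl⟩
  | succ n ih =>
    intro l hl hg v w
    induction v generalizing l with
    | nil =>
      obtain ⟨a, -, f, k1, k2, -, k3⟩ := list_dec l hg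
      obtain ⟨u, hu⟩ := ih (f 1) ((k3 1 (by simp) (by decide)).trans (by omega)) (k2 1) [] w
      exact ⟨a 1 :: u, (k1.2 _ _).trans (congrArg _ hu)⟩
    | cons x v ih' =>
      obtain ⟨a, -, f, k1, k2, k3, -⟩ := list_dec l hg
      obtain ⟨u, hu⟩ := ih' (f x) ((k3 x).trans hl) (k2 x)
      exact ⟨a x :: u, (k1.2 _ _).trans (congrArg _ hu)⟩

lemma dr_rep (α : Perm X) (n : ℕ) (x : X) :
    dr 1 α (List.replicate n 1 ++ [2, x]) = List.replicate n 1 ++ [2, α x] := by
  induction n with
  | zero => rfl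
  | succ n ih => exact (dr_cons ..).trans (congrArg _ ih)

end Pool.Agent.H.MP_9e467c_al
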